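import Pool.Agent.Lib.MP_ebddb6_al.Defs
import Pool.Agent.Lib.MP_ebddb6_al.Main

namespace Pool.Agent.Results.MP_ebddb6_al.AlwaysSharp

open Pool.Agent.Lib.MP_ebddb6_al

theorem result {X : Type*} [MetricSpace X] [ProperSpace X]
    (hgeo : IsGeodesic X) (hhyp : IsHyperbolic X) (Γ : Subgroup (X ≃ᵢ X))
    (hdisc : IsDiscrete ((fun γ : X ≃ᵢ X => (γ : C(X, X))) '' Γ))
    (hcoc : ∃ K : Set X, IsCompact K ∧ ∀ x, ∃ γ ∈ Γ, γ x ∈ K)
    (o : X) (hpos : 0 < critExp Γ o) :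
    ∃ N : ℕ → Subgroup (X ≃ᵢ X),
      (∀ i, N i ≤ Γ ∧ ((N i).subgroupOf Γ).Normal ∧ Infinite (N i)) ∧
      Filter.Tendsto (fun i => critExp (N i) o / critExp Γ o) Filter.atTop (nhds (1 / 2)) := by
  choose N h1 h2 h3 using fun i : ℕ =>
    sharp hgeo hhyp Γ hdisc hcoc o hpos (ε := 1 / ((i : ℝ) + 1)) Nat.one_div_pos_of_nat
  refine ⟨N, h1, ?_⟩
  have h4 : Filter.Tendsto (fun i => critExp (N i) o) Filter.atTop (nhds (critExp Γ o / 2)) := by
    refine tendsto_of_tendsto_of_tendsto_of_le_of_le tendsto_const_nhds ?_ h2 h3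
    simpa using (tendsto_one_div_add_atTop_nhds_zero_nat (𝕜 := ℝ)).const_add (critExp Γ o / 2)
  have h5 := h4.div_const (critExp Γ o)
  rwa [show critExp Γ o / 2 / critExp Γ o = 1 / 2 by field_simp] at h5

end Pool.Agent.Results.MP_ebddb6_al.AlwaysSharp
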